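import Pool.Agent.Y518.CC.FStm

/-!
# Colourings of Borel graphs without Vitali sets: elements of symmetric sets can be moved
-/

set_option autoImplicit false

namespace Pool.Agent.Y681.CC.KIL

open Pool.Agent.Y518.CC
open Pool.Agent.W868 Pool.Agent.W868.PName Pool.Agent.W910 Pool.Agent.W910.SY
open MeasureTheory
open Pool.Agent.W910.BG (code)
open ZFSet (pair)

variable {k : ℕ} {Γ : SimpleGraph (ℕ → ℕ)} {D : Dat k Γ}

theorem gs_has {β : ℝ} {s : Finset ℕ} {j : ℝ × ℕ} : (gs β s).Has j ↔ j.1 = β ∧ j.2 ∈ s := by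
  unfold Gp.Has gs
  simp only [Finset.mem_map, Function.Embedding.coeFn_mk]
  constructor
  · rintro ⟨n, hn, rfl⟩
    exact ⟨rfl, hn⟩
  · rintro ⟨h1, h2⟩
    exact ⟨j.2, h2, by rw [← h1]⟩

theorem gs_mul (β : ℝ) {n n' : ℕ} (h : n ≠ n') :
    gs β {n'} * gs β {n} = gs β {n, n'} := by
  refine Gp.ext (Finset.ext fun j => ?_)
  change (gs β {n'} * gs β {n}).Has j ↔ (gs β {n, n'}).Has j
  rw [Gp.has_mul, gs_has, gs_has, gs_has]
  simp only [Finset.mem_singleton, Finset.mem_insert]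
  constructor
  · intro h1
    by_contra h2
    apply h1
    constructor
    · rintro ⟨h3, h4⟩
      exact absurd ⟨h3, Or.inr h4⟩ h2
    · rintro ⟨h3, h4⟩
      exact absurd ⟨h3, Or.inl h4⟩ h2
  · rintro ⟨h3, h4 | h4⟩ h5
    · exact h (h4.symm.trans (h5.2 ⟨h3, h4⟩).2)
    · exact h ((h5.1 ⟨h3, h4⟩).2.symm.trans h4)

theorem gs_mem_Fx {β : ℝ} {S : Set ℝ} (h : β ∉ S) (s : Finset ℕ) : gs β s ∈ Fx S := by
  rw [mem_Fx]
  intro j hj
  rw [(gs_has.1 hj).1]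
  exact h

theorem exists_two (β : ℝ) (q : Cn D) : ∃ s : Finset ℕ, s.Nonempty ∧
    D.μ (q.1 ∩ mo (gs β s) ⁻¹' q.1) ≠ 0 := by
  by_contra hcon
  push Not at hcon
  have hA : ∀ n, D.μ (mo (gs β {n}) ⁻¹' q.1) = D.μ q.1 := fun n => measure_mo D _ q.2.1
  have hmeas : ∀ n : ℕ, MeasurableSet (mo (gs β {n}) ⁻¹' q.1 : Set (Om k)) :=
    fun n => measurable_mo _ q.2.1
  have hdis : Pairwise (Function.onFun (AEDisjoint D.μ) fun n : ℕ => mo (gs β {n}) ⁻¹' q.1) := by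
    intro n n' hnn
    change D.μ (mo (gs β {n}) ⁻¹' q.1 ∩ mo (gs β {n'}) ⁻¹' q.1) = 0
    rw [← measure_mo D (gs β {n}) ((hmeas n).inter (hmeas n'))]
    have h1 : mo (gs β {n}) ⁻¹' (mo (gs β {n}) ⁻¹' q.1 ∩ mo (gs β {n'}) ⁻¹' q.1) =
        q.1 ∩ mo (gs β {n, n'}) ⁻¹' q.1 := by
      ext u
      simp only [Set.mem_preimage, Set.mem_inter_iff, mo_mo]
      rw [← mo_mul, gs_mul β hnn]
    rw [h1]
    exact hcon {n, n'} ⟨n, by simp⟩
  have h2 := measure_iUnion₀ hdis fun n => (hmeas n).nullMeasurableSet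
  simp only [hA] at h2
  rw [ENNReal.tsum_const_eq_top_of_ne_zero q.2.2] at h2
  exact measure_ne_top _ _ h2

theorem bits_mo {β : ℝ} {s : Finset ℕ} {x : Om k}
    (hx : ∀ n, (x (.base (β, n) true)).1 ≠ (x (.base (β, n) false)).1) :
    bits β (mo (gs β s) x) = flp s (bits β x) := by
  classical
  funext n
  unfold bits flp mo mv
  by_cases hn : n ∈ s
  · have h1 : (gs β s).Has (β, n) := gs_has.2 ⟨rfl, hn⟩
    have h2 := hx n
    have h3 : (false ^^ decide ((gs β s).Has (β, n))) = true := by simp [h1]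
    have h4 : decide (n ∈ s) = true := by simp [hn]
    rw [h4]
    change (x (.base (β, n) (false ^^ decide ((gs β s).Has (β, n))))).1 = _
    rw [h3]
    have h5 : ∀ a b : Bool, a ≠ b → a = (b ^^ true) := by decide
    exact h5 _ _ h2
  · have h1 : ¬ (gs β s).Has (β, n) := fun h => hn (gs_has.1 h).2
    simp [h1, hn]

theorem main (hN : S_NAM) : S_KIL := by
  classical
  intro k Γ D ι φ π R hR hRr hRp hRk x hx T hT hHS
  obtain ⟨H, ⟨S, hS, rfl⟩, hfix⟩ := hHS.sym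
  have hex : ∃ β : ℝ, ∃ S : Set ℝ, β ∉ S ∧
      ∀ g ∈ Fx S, ∀ p, Feq (act (smQ D g) T) T p := by
    have h1 : ∃ β : ℝ, β ∉ S := by
      by_contra h
      push Not at h
      exact Cardinal.not_countable_real (hS.mono fun b _ => h b)
    obtain ⟨β, hβ⟩ := h1
    exact ⟨β, S, hβ, fun g hg p => hfix g hg p⟩
  have h0 := r0_mem hR (hRk (Or.inl (Or.inl (Or.inl (Or.inl rfl))))) hT 0
  rw [dif_pos hex] at h0
  obtain ⟨S', hβ', hinv⟩ := hex.choose_spec
  set β := hex.choose with hβdef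
  have hβ : Hul π β := h0
  refine ⟨β, hβ, fun i hi => ?_⟩
  have hf : Hul π (fN (k := k) (φ i) β) :=
    r1_mem hR (hRk (Or.inl (Or.inl (Or.inr ⟨i, rfl⟩)))) hβ 0
  have hreal : ∀ f : NR k, Hul π f → realN D f ∈ π.N := fun f hf =>
    r1_mem hR (hRr (Or.inr (Or.inr rfl))) hf 0
  have e1 : π.val (realN D (fN (k := k) (φ i) β)) = code ((φ i).1 (bits β x)) := hx.2.2 _ hf
  rw [← e1, π.val_mem_iff (hreal _ hf) hT] at hi
  obtain ⟨m, hm⟩ := hi
  have h3 := r1_mem hR (hRk (Or.inl (Or.inl (Or.inl (Or.inr rfl))))) hβ m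
  obtain ⟨m', hm', s, hs, hs1, hs2⟩ := gen_dense' π h3 (m := m) (by
    rintro r ⟨s, hs, h4, h5⟩ q hq
    exact ⟨s, hs, Set.Subset.trans hq h4, Set.Subset.trans hq h5⟩) (by
    intro q hq
    obtain ⟨s, hs, h4⟩ := exists_two β q
    refine ⟨⟨q.1 ∩ mo (gs β s) ⁻¹' q.1, q.2.1.inter (measurable_mo _ q.2.1), h4⟩,
      Set.inter_subset_left, s, hs, Set.Subset.trans Set.inter_subset_left hq, ?_⟩
    exact Set.Subset.trans Set.inter_subset_right (Set.preimage_mono hq))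
  have hle : π.g m' ≤ smQ D (gs β s) (π.g m) := hs2
  have h5 := (fmem_act' (e := smQ D (gs β s)) hm).mono hle
  have h6 : Fmem (realN D (smR (gs β s) (fN (k := k) (φ i) β))) T (π.g m') :=
    fmem_congr ((hN k Γ D).2.2 _ _ _) (hinv _ (gs_mem_Fx hβ' s) _) h5
  have hf2 : Hul π (smR (gs β s) (fN (k := k) (φ i) β)) :=
    r1_mem hR (hRk (Or.inl (Or.inr ⟨(i, s), rfl⟩))) hβ 0
  have h7 : π.val (realN D (smR (gs β s) (fN (k := k) (φ i) β))) ∈ π.val T :=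
    (π.val_mem_iff (hreal _ hf2) hT).2 ⟨m', h6⟩
  rw [hx.2.2 _ hf2] at h7
  refine ⟨s, hs, ?_⟩
  have hb : ∀ n, (x (.base (β, n) true)).1 ≠ (x (.base (β, n) false)).1 := by
    intro n
    have h8 : Hul π {u : Om k | (u (.base (β, n) true)).1 ≠ (u (.base (β, n) false)).1} :=
      r1_mem hR (hRk (Or.inr ⟨n, rfl⟩)) hβ 0
    exact hx.2.1 _ h8 (D.bit (β, n))
  rw [← bits_mo hb]
  exact h7

end Pool.Agent.Y681.CC.KIL
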